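import Pool.Agent.Helper63.P705.BS.Goals

/-!
# MP_705522_gt: packet BS-BC, the supremum of `Γ(x) σ^(-x)` over a cell
-/

namespace Pool.Agent.Helper26.BS

open Pool.Agent.Helper63.P705

/-- `Γ(x) σ^(-x)` is bounded on an interval by the larger of the two end values. -/
theorem gam_le_max {σ a b x : ℝ} (hσ : 0 < σ) (ha : 0 < a) (hax : a ≤ x) (hxb : x ≤ b) :
    Real.Gamma x * σ ^ (-x) ≤
      max (Real.Gamma a * σ ^ (-a)) (Real.Gamma b * σ ^ (-b)) := by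
  have hx : 0 < x := lt_of_lt_of_le ha hax
  have hb : 0 < b := lt_of_lt_of_le hx hxb
  have hc : ConvexOn ℝ (Set.Ioi (0 : ℝ)) (fun y => Real.log (Real.Gamma y) + (-Real.log σ) * y) := by
    have h1 : ConvexOn ℝ (Set.Ioi (0 : ℝ)) (fun y => Real.log (Real.Gamma y)) :=
      Real.convexOn_log_Gamma
    have h2 : ConvexOn ℝ (Set.Ioi (0 : ℝ)) (fun y : ℝ => (-Real.log σ) * y) := by
      refine ⟨convex_Ioi 0, ?_⟩
      intro u _ v _ p q _ _ _
      simp only [smul_eq_mul]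
      apply le_of_eq
      ring
    exact h1.add h2
  have hm := hc.le_max_of_mem_Icc (x := a) (y := b) (z := x) ha hb ⟨hax, hxb⟩
  have key : ∀ y : ℝ, 0 < y →
      Real.Gamma y * σ ^ (-y) = Real.exp (Real.log (Real.Gamma y) + (-Real.log σ) * y) := by
    intro y hy
    rw [Real.exp_add, Real.exp_log (Real.Gamma_pos_of_pos hy), Real.rpow_def_of_pos hσ]
    congr 2
    ring
  rw [key x hx, key a ha, key b hb]
  rcases le_max_iff.mp hm with h | h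
  · exact le_max_of_le_left (Real.exp_le_exp.mpr h)
  · exact le_max_of_le_right (Real.exp_le_exp.mpr h)

/-- `Γ ≤ 5040` on `[1,8]`. -/
theorem gam_le {x : ℝ} (h1 : 1 ≤ x) (h8 : x ≤ 8) : Real.Gamma x ≤ 5040 := by
  have hm := Real.convexOn_Gamma.le_max_of_mem_Icc (x := 1) (y := 8) (z := x)
    (by norm_num) (by norm_num) ⟨h1, h8⟩
  have h8' : Real.Gamma 8 = 5040 := by
    have h : Real.Gamma ((7 : ℕ) + 1) = (Nat.factorial 7 : ℝ) := Real.Gamma_nat_eq_factorial 7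
    have e1 : ((7 : ℕ) : ℝ) + 1 = 8 := by norm_num
    have e2 : ((Nat.factorial 7 : ℕ) : ℝ) = 5040 := by norm_num [Nat.factorial]
    rw [e1, e2] at h
    exact h
  rw [Real.Gamma_one, h8'] at hm
  refine hm.trans ?_
  norm_num

/-- the value at an end. -/
theorem end_le (hBB : ∀ p : ℕ, 4096 ≤ p → p < 65536 →
      2 ^ 60 * Real.Gamma (p / 8192) ≤ gamU p ∧ (gamL p : ℝ) ≤ 2 ^ 60 * Real.Gamma (p / 8192) ∧
      (p ≤ 8192 → 2 ^ 59 ≤ gamL p))
    (hA : ∀ s P : ℕ, 8192 ≤ P → (pwL s P : ℝ) ≤ 2 ^ 60 * ((s : ℝ) / 2 ^ 60) ^ ((P : ℝ) / 8192))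
    {s P : ℕ} (hP : 8192 ≤ P) (hP' : P < 65536) {σ : ℝ} (hσ : 1 ≤ σ)
    (hs : (s : ℝ) ≤ 2 ^ 60 * σ) :
    2 ^ 60 * (Real.Gamma ((P : ℝ) / 8192) * σ ^ (-((P : ℝ) / 8192))) ≤ gsP s P := by
  have hσ0 : 0 < σ := lt_of_lt_of_le one_pos hσ
  have hPr : (8192 : ℝ) ≤ P := by exact_mod_cast hP
  have hPr' : (P : ℝ) < 65536 := by exact_mod_cast hP'
  have hG0 : 0 < Real.Gamma ((P : ℝ) / 8192) := Real.Gamma_pos_of_pos (by positivity)
  have hsp : 0 < σ ^ ((P : ℝ) / 8192) := Real.rpow_pos_of_pos hσ0 _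
  have hsp1 : 1 ≤ σ ^ ((P : ℝ) / 8192) := Real.one_le_rpow hσ (by positivity)
  have hneg : σ ^ (-((P : ℝ) / 8192)) = (σ ^ ((P : ℝ) / 8192))⁻¹ := Real.rpow_neg hσ0.le _
  rw [hneg]
  unfold gsP
  rw [sq_eq, cnd_eq]
  by_cases hw : pwL s P = 0
  · have hbeq : Nat.beq (pwL s P) 0 = true := by rw [hw]; rfl
    rw [hbeq]
    simp only [if_true]
    have hG : Real.Gamma ((P : ℝ) / 8192) ≤ 5040 := gam_le (by linarith) (by linarith)
    have hinv : (σ ^ ((P : ℝ) / 8192))⁻¹ ≤ 1 := inv_le_one_of_one_le₀ hsp1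
    have hval : ((Nat.shiftLeft 1 200 : ℕ) : ℝ) = 2 ^ 200 := by
      have : Nat.shiftLeft 1 200 = 2 ^ 200 := by
        have h1 := Nat.shiftLeft_eq 1 200
        exact h1.trans (one_mul _)
      rw [this]
      norm_num
    rw [hval]
    have h1 : Real.Gamma ((P : ℝ) / 8192) * (σ ^ ((P : ℝ) / 8192))⁻¹ ≤ 5040 * 1 :=
      mul_le_mul hG hinv (by positivity) (by norm_num)
    calc (2 : ℝ) ^ 60 * (Real.Gamma ((P : ℝ) / 8192) * (σ ^ ((P : ℝ) / 8192))⁻¹)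
        ≤ 2 ^ 60 * (5040 * 1) := by gcongr
      _ ≤ 2 ^ 200 := by norm_num
  · have hbeq : Nat.beq (pwL s P) 0 = false := by
      cases h : Nat.beq (pwL s P) 0
      · rfl
      · exact absurd (Nat.eq_of_beq_eq_true h) hw
    rw [hbeq]
    simp only [Bool.false_eq_true, if_false]
    have hwpos : (0 : ℝ) < (pwL s P : ℝ) := by
      exact_mod_cast Nat.pos_of_ne_zero hw
    have hwle : (pwL s P : ℝ) ≤ 2 ^ 60 * σ ^ ((P : ℝ) / 8192) := by
      refine (hA s P hP).trans ?_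
      have : ((s : ℝ) / 2 ^ 60) ^ ((P : ℝ) / 8192) ≤ σ ^ ((P : ℝ) / 8192) := by
        apply Real.rpow_le_rpow (by positivity) _ (by positivity)
        rw [div_le_iff₀ (by positivity)]
        linarith
      gcongr
    have hinv : (σ ^ ((P : ℝ) / 8192))⁻¹ ≤ 2 ^ 60 / (pwL s P : ℝ) := by
      rw [inv_eq_one_div, div_le_div_iff₀ hsp hwpos]
      linarith
    have hU := (hBB P (by omega) hP').1
    have hU0 : (0 : ℝ) ≤ gamU P := Nat.cast_nonneg _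
    have hcalc : (2 : ℝ) ^ 60 * (Real.Gamma ((P : ℝ) / 8192) * (σ ^ ((P : ℝ) / 8192))⁻¹) ≤
        (gamU P : ℝ) * 2 ^ 60 / (pwL s P : ℝ) := by
      calc (2 : ℝ) ^ 60 * (Real.Gamma ((P : ℝ) / 8192) * (σ ^ ((P : ℝ) / 8192))⁻¹)
          = (2 ^ 60 * Real.Gamma ((P : ℝ) / 8192)) * (σ ^ ((P : ℝ) / 8192))⁻¹ := by ring
        _ ≤ (gamU P : ℝ) * (2 ^ 60 / (pwL s P : ℝ)) :=
            mul_le_mul hU hinv (by positivity) hU0
        _ = (gamU P : ℝ) * 2 ^ 60 / (pwL s P : ℝ) := by ring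
    have hshift : Nat.shiftLeft (gamU P) 60 = gamU P * 2 ^ 60 := Nat.shiftLeft_eq _ _
    have hsucc : ((Nat.succ (Nat.div (Nat.shiftLeft (gamU P) 60) (pwL s P)) : ℕ) : ℝ) =
        ((gamU P * 2 ^ 60 / pwL s P : ℕ) : ℝ) + 1 := by
      rw [hshift]
      push_cast
      rfl
    rw [hsucc]
    refine hcalc.trans ?_
    have hfl := Nat.lt_floor_add_one (((gamU P * 2 ^ 60 : ℕ) : ℝ) / ((pwL s P : ℕ) : ℝ))
    rw [Nat.floor_div_eq_div] at hfl
    have e3 : ((gamU P * 2 ^ 60 : ℕ) : ℝ) = (gamU P : ℝ) * 2 ^ 60 := by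
      rw [Nat.cast_mul, Nat.cast_pow]
      norm_num
    rw [e3] at hfl
    exact hfl.le

theorem bC : Pool.Agent.Helper63.P705.BC := by
  intro hNum hBA hBB s P P' hP hPP hP' σ x hσ hs hx1 hx2
  have hBB' := hBB hNum
  have hσ0 : 0 < σ := lt_of_lt_of_le one_pos hσ
  have hPr : (8192 : ℝ) ≤ P := by exact_mod_cast hP
  have hm := gam_le_max (σ := σ) hσ0 (a := (P : ℝ) / 8192) (b := (P' : ℝ) / 8192) (x := x)
    (by positivity) hx1 hx2
  have e1 := end_le hBB' hBA.2 hP (lt_of_le_of_lt hPP hP') hσ hs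
  have e2 := end_le hBB' hBA.2 (hP.trans hPP) hP' hσ hs
  unfold gsM
  rw [nmax_eq]
  rw [Nat.cast_max]
  rcases le_max_iff.mp hm with h | h
  · apply le_max_of_le_left
    refine le_trans ?_ e1
    gcongr
  · apply le_max_of_le_right
    refine le_trans ?_ e2
    gcongr

end Pool.Agent.Helper26.BS
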